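import Mathlib
import Pool.Agent.H30.LWdata

set_option autoImplicit false

namespace Pool.Agent.Results.MP_e07dae_nt.EightBases

open Pool.Agent.H30.LW

lemma aa_large (m A : ℕ) (hm : 1 ≤ m) (hA : A < m) : ∀ i : Fin 8, A < aa m i := by
  have h0 : 0 ≤ m ^ 2 := Nat.zero_le _
  apply forall8
  · rw [aa0]; omega
  · rw [aa1]; omega
  · rw [aa2]; omega
  · rw [aa3]; omega
  · rw [aa4]; omega
  · rw [aa5]; omega
  · rw [aa6]; omega
  · rw [aa7]; omega

lemma aa_inj (m : ℕ) (hm : 1 ≤ m) : Function.Injective (aa m) := by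
  have h0 : 0 ≤ m ^ 2 := Nat.zero_le _
  intro i j h
  fin_cases i <;> fin_cases j <;>
    first
    | rfl
    | (exfalso
       simp only [Fin.zero_eta, Fin.mk_one, Fin.reduceFinMk] at h
       simp only [aa0, aa1, aa2, aa3, aa4, aa5, aa6, aa7] at h
       omega)

/-- The multiplicative form of the Lang-Waldschmidt conjecture fails for every `ε < 2/15`, already for
`n = 8` and with arbitrarily large distinct bases (so it also fails with `C(ε)^n` in place of `C(ε)`). -/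
theorem result :
    ∀ ε : ℝ, 0 < ε → ε < 2 / 15 → ∀ C : ℝ, 0 < C → ∀ A : ℕ,
      ∃ a : Fin 8 → ℕ, ∃ b : Fin 8 → ℤ,
        Function.Injective a ∧ (∀ i, A < a i) ∧ (∀ i, b i ≠ 0) ∧
        (∏ i, ((a i : ℝ) ^ (b i))) ≠ 1 ∧
        |(∏ i, ((a i : ℝ) ^ (b i))) - 1| <
          C * ((Finset.univ.sup (fun j => (b j).natAbs) : ℕ) : ℝ) /
            ((|(∏ i, b i) * ∏ i, (a i : ℤ)| : ℤ) : ℝ) ^ (1 + ε) := by
  intro ε hε0 hε1 C hC A
  obtain ⟨K, hK⟩ : ∃ K : ℝ, K = 10 ^ 96 := ⟨_, rfl⟩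
  have hKpos : 0 < K := by rw [hK]; positivity
  have hK0 : 0 < K ^ (1 + ε) := Real.rpow_pos_of_pos hKpos _
  have hδ : 0 < 2 - 15 * ε := by linarith
  -- choose a large parameter
  have htend := (tendsto_rpow_atTop hδ).comp
    (tendsto_natCast_atTop_atTop (R := ℝ))
  have hev1 := (htend.eventually (Filter.eventually_gt_atTop (4000 * K ^ (1 + ε) / C)))
  have hev2 := Filter.eventually_gt_atTop (α := ℕ) (10 ^ 4 + A + 1)
  obtain ⟨p, hp1, hp2⟩ := (hev1.and hev2).exists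
  obtain ⟨m, rfl⟩ : ∃ m, p = m + 1 := ⟨p - 1, by omega⟩
  have hm1 : 1 ≤ m := by omega
  have hmA : A < m := by omega
  obtain ⟨q, hq⟩ : ∃ q : ℝ, q = (m : ℝ) + 1 := ⟨_, rfl⟩
  have hmq : (m : ℝ) = q - 1 := by rw [hq]; ring
  have hcast : ((m + 1 : ℕ) : ℝ) = q := by rw [hq]; push_cast; ring
  simp only [Function.comp_apply, hcast] at hp1
  have hq4 : (10 : ℝ) ^ 4 ≤ q := by
    have : 10 ^ 4 ≤ m + 1 := by omega
    rw [← hcast]; exact_mod_cast this
  have hq0 : 0 < q := by linarith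
  have hq2 : 2 ≤ q := by linarith
  -- the product and its logarithm
  have hPpos : 0 < ∏ i, ((aa m i : ℝ) ^ (bb m i)) := by
    apply Finset.prod_pos
    intro i _
    have : (0 : ℝ) < aa m i := by exact_mod_cast aa_pos m hm1 i
    exact zpow_pos this _
  have hlog := log_prod_eq m hm1
  rw [← hq] at hlog
  have hest := Lam_est q hq2
  have hu0 : 0 < 1 / q := by positivity
  have hu4 : 1 / q ≤ 1 / 10 ^ 4 := one_div_le_one_div_of_le (by norm_num) hq4
  have hu16 : 0 < (1 / q) ^ 16 := by positivity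
  have hu18 : 10 ^ 10 * (1 / q) ^ 18 ≤ 100 * (1 / q) ^ 16 := by
    have h1 : (1 / q) ^ 2 ≤ (1 / 10 ^ 4) ^ 2 := pow_le_pow_left₀ hu0.le hu4 2
    have h2 : (1 / q) ^ 18 = (1 / q) ^ 2 * (1 / q) ^ 16 := by ring
    rw [h2]
    have h3 : (1 / q) ^ 2 * (1 / q) ^ 16 ≤ (1 / 10 ^ 4) ^ 2 * (1 / q) ^ 16 :=
      mul_le_mul_of_nonneg_right h1 hu16.le
    linarith
  have hb := abs_le.mp (hest.trans hu18)
  have hneg : Lam q ≤ -(800 * (1 / q) ^ 16) := by linarith [hb.2]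
  have hlow : -(2000 * (1 / q) ^ 16) < Lam q := by linarith [hb.1]
  have hLne : Lam q ≠ 0 := by
    have : 0 < 800 * (1 / q) ^ 16 := by positivity
    linarith
  have hu16' : (1 / q) ^ 16 ≤ (1 / 10 ^ 4) ^ 16 := pow_le_pow_left₀ hu0.le hu4 16
  have habs : |Lam q| < 2000 * (1 / q) ^ 16 := by
    rw [abs_lt]
    constructor
    · exact hlow
    · have : 0 < 800 * (1 / q) ^ 16 := by positivity
      linarith
  have habs1 : |Lam q| ≤ 1 := by
    refine habs.le.trans ?_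
    calc 2000 * (1 / q) ^ 16 ≤ 2000 * (1 / 10 ^ 4) ^ 16 := by linarith
      _ ≤ 1 := by norm_num
  have hP : ∏ i, ((aa m i : ℝ) ^ (bb m i)) = Real.exp (Lam q) := by
    rw [← hlog, Real.exp_log hPpos]
  have hPne : ∏ i, ((aa m i : ℝ) ^ (bb m i)) ≠ 1 := by
    rw [hP]
    intro hcon
    exact hLne (by rw [Real.exp_eq_one_iff] at hcon; exact hcon)
  refine ⟨aa m, bb m, aa_inj m hm1, aa_large m A hm1 hmA, bb_ne m, hPne, ?_⟩
  have hup : |(∏ i, ((aa m i : ℝ) ^ (bb m i))) - 1| < 4000 * (1 / q) ^ 16 := by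
    rw [hP]
    refine (Real.abs_exp_sub_one_le habs1).trans_lt ?_
    linarith
  refine hup.trans_le ?_
  -- lower bound for the right-hand side
  have hH := H_bound m hm1
  rw [← hq, ← hK] at hH
  have hHpos : (0 : ℝ) < ((|(∏ i, bb m i) * ∏ i, (aa m i : ℤ)| : ℤ) : ℝ) := by
    have : (0 : ℤ) < |(∏ i, bb m i) * ∏ i, (aa m i : ℤ)| := by
      rw [abs_pos]
      apply mul_ne_zero
      · exact Finset.prod_ne_zero_iff.mpr (fun i _ => bb_ne m i)
      · exact Finset.prod_ne_zero_iff.mpr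
          (fun i _ => by have := aa_pos m hm1 i; exact_mod_cast this.ne')
    exact_mod_cast this
  obtain ⟨H, hHdef⟩ : ∃ H : ℝ, H = ((|(∏ i, bb m i) * ∏ i, (aa m i : ℤ)| : ℤ) : ℝ) := ⟨_, rfl⟩
  rw [← hHdef] at hH hHpos ⊢
  have hB : q ≤ ((Finset.univ.sup (fun j => (bb m j).natAbs) : ℕ) : ℝ) := by
    have h1 : (bb m 0).natAbs ≤ Finset.univ.sup (fun j => (bb m j).natAbs) :=
      Finset.le_sup (f := fun j => (bb m j).natAbs) (Finset.mem_univ 0)
    have h2 : ((bb m 0).natAbs : ℝ) = |((bb m 0 : ℤ) : ℝ)| := by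
      rw [Nat.cast_natAbs]; push_cast; rfl
    have h3 : (((bb m 0).natAbs : ℕ) : ℝ)
        ≤ ((Finset.univ.sup (fun j => (bb m j).natAbs) : ℕ) : ℝ) := by exact_mod_cast h1
    refine le_trans ?_ h3
    rw [h2, rb0 m q hmq]
    refine le_trans ?_ (le_abs_self _)
    linarith
  have hHp : H ^ (1 + ε) ≤ K ^ (1 + ε) * q ^ (15 * (1 + ε)) := by
    have h1 : H ^ (1 + ε) ≤ (K * q ^ 15) ^ (1 + ε) :=
      Real.rpow_le_rpow hHpos.le hH (by linarith)
    refine h1.trans (le_of_eq ?_)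
    rw [Real.mul_rpow (by positivity) (by positivity)]
    congr 1
    rw [← Real.rpow_natCast q 15, ← Real.rpow_mul hq0.le]
    norm_num
  have hHp0 : 0 < H ^ (1 + ε) := Real.rpow_pos_of_pos hHpos _
  have hqp : 0 < q ^ (15 * (1 + ε)) := Real.rpow_pos_of_pos hq0 _
  have hlhs : C * q / (K ^ (1 + ε) * q ^ (15 * (1 + ε)))
      ≤ C * ((Finset.univ.sup (fun j => (bb m j).natAbs) : ℕ) : ℝ) / H ^ (1 + ε) := by
    apply div_le_div₀
    · exact mul_nonneg hC.le (Nat.cast_nonneg _)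
    · exact mul_le_mul_of_nonneg_left hB hC.le
    · exact hHp0
    · exact hHp
  refine le_trans ?_ hlhs
  rw [le_div_iff₀ (by positivity)]
  rw [div_lt_iff₀ hC] at hp1
  have hpw : q ^ (2 - 15 * ε) * ((1 / q) ^ 16 * q ^ (15 * (1 + ε))) = q := by
    have e1 : (1 / q) ^ 16 = q ^ (-16 : ℝ) := by
      rw [Real.rpow_neg hq0.le, one_div, inv_pow]
      congr 1
      exact_mod_cast (Real.rpow_natCast q 16).symm
    rw [e1, ← Real.rpow_add hq0, ← Real.rpow_add hq0]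
    rw [show (2 - 15 * ε + (-16 + 15 * (1 + ε)) : ℝ) = 1 by ring, Real.rpow_one]
  have hpos2 : 0 < (1 / q) ^ 16 * q ^ (15 * (1 + ε)) := by positivity
  calc 4000 * (1 / q) ^ 16 * (K ^ (1 + ε) * q ^ (15 * (1 + ε)))
      = (4000 * K ^ (1 + ε)) * ((1 / q) ^ 16 * q ^ (15 * (1 + ε))) := by ring
    _ ≤ (q ^ (2 - 15 * ε) * C) * ((1 / q) ^ 16 * q ^ (15 * (1 + ε))) :=
        mul_le_mul_of_nonneg_right hp1.le hpos2.le
    _ = C * (q ^ (2 - 15 * ε) * ((1 / q) ^ 16 * q ^ (15 * (1 + ε)))) := by ring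
    _ = C * q := by rw [hpw]

end Pool.Agent.Results.MP_e07dae_nt.EightBases
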